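import Mathlib
import Pool.Agent.R437.Lucas

set_option autoImplicit false

/-!
Primitive prime divisors of the solutions of Pell's equation: if `a` is a solution with `x, y > 0`, then
for `n ≥ 2` there is a prime divisor of the `y`-part of `a ^ n` which does not divide the `y`-parts of
`a ^ m`, `1 ≤ m < n`.
-/

open Finset

namespace Pool.Agent.H977.RK

open Pool.Agent.R437.Lucas Pool.Agent.R437.SDiv

/-- powers of a solution and the Lucas sequence -/
theorem y_pow {d : ℤ} (b : Pell.Solution₁ d) (k : ℕ) : (b ^ k).y = b.y * U (2 * b.x) 1 k := by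
  have key : ∀ k, (b ^ k).y = b.y * U (2 * b.x) 1 k ∧ (b ^ (k + 1)).y = b.y * U (2 * b.x) 1 (k + 1) := by
    intro k
    induction k with
    | zero => simp [U]
    | succ k ih =>
      refine ⟨ih.2, ?_⟩
      rw [U_succ]
      have h1 : (b ^ (k + 1 + 1)).y = 2 * b.x * (b ^ (k + 1)).y - (b ^ k).y := by
        rw [pow_succ b (k + 1), Pell.Solution₁.y_mul, pow_succ b k, Pell.Solution₁.x_mul,
          Pell.Solution₁.y_mul]
        have := b.prop
        linear_combination (-(b ^ k).y) * this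
      rw [h1, ih.1, ih.2]
      ring
  exact (key k).1

theorem U_congr {N : ℤ} {P P' : ℤ} (h : P ≡ P' [ZMOD N]) (k : ℕ) : U P 1 k ≡ U P' 1 k [ZMOD N] := by
  induction k using Nat.twoStepInduction with
  | zero => rfl
  | one => rfl
  | more n ih1 ih2 =>
    rw [U_succ, U_succ]
    exact (h.mul ih2).sub (Int.ModEq.mul rfl ih1)

theorem U_pm (e : ℤ) (he : e ^ 2 = 1) (k : ℕ) : U (2 * e) 1 k = e ^ (k + 1) * k := by
  induction k using Nat.twoStepInduction with
  | zero => simp [U]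
  | one => simp [U, he]
  | more n ih1 ih2 =>
    rw [U_succ, ih1, ih2]
    push_cast
    have : e ^ (n + 1 + 1) = e ^ n := by rw [show n + 1 + 1 = n + 2 by ring, pow_add, he, mul_one]
    have h3 : e ^ (n + 2 + 1) = e ^ (n + 1) := by
      rw [show n + 2 + 1 = n + 1 + 2 by ring, pow_add, he, mul_one]
    rw [this, h3]
    have h4 : e * e ^ n = e ^ (n + 1) := by ring
    linear_combination (2 * ((n : ℤ) + 1)) * h4

/-- the congruence part: `z ^ 2 ≡ 1` modulo `p ^ 2` -/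
theorem U_prime {p : ℕ} (hp : p.Prime) {l : ℕ} (hl : l.Prime) {z : ℤ} (hz : (p : ℤ) ^ 2 ∣ z ^ 2 - 1)
    (hd : (p : ℤ) ∣ U (2 * z) 1 l) : p = l ∧ ¬ (p : ℤ) ^ 2 ∣ U (2 * z) 1 l := by
  have hpZ : Prime (p : ℤ) := Nat.prime_iff_prime_int.1 hp
  -- `z ≡ e` modulo `p`
  have h1 : ∃ e : ℤ, e ^ 2 = 1 ∧ z ≡ e [ZMOD p] ∧ (p ≠ 2 → z ≡ e [ZMOD (p : ℤ) ^ 2]) := by
    have h2 : (p : ℤ) ^ 2 ∣ (z - 1) * (z + 1) := by
      convert hz using 1; ring
    have h3 : (p : ℤ) ∣ (z - 1) * (z + 1) := (dvd_pow_self _ two_ne_zero).trans h2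
    by_cases hp2 : p = 2
    · refine ⟨1, by norm_num, ?_, fun h => absurd hp2 h⟩
      subst hp2
      rcases hpZ.dvd_mul.1 h3 with h4 | h4
      · exact ((Int.modEq_iff_dvd).2 h4).symm
      · have h5 : ((2 : ℕ) : ℤ) ∣ z - 1 := by
          have h6 : z - 1 = z + 1 - 2 := by ring
          rw [h6]
          exact dvd_sub h4 (by norm_num)
        exact ((Int.modEq_iff_dvd).2 h5).symm
    · have h5 : ¬ ((p : ℤ) ∣ z - 1 ∧ (p : ℤ) ∣ z + 1) := by
        rintro ⟨h6, h7⟩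
        have h8 : (p : ℤ) ∣ 2 := by
          have := dvd_sub h7 h6
          have e : z + 1 - (z - 1) = 2 := by ring
          rwa [e] at this
        have h9 : p ∣ 2 := by exact_mod_cast h8
        exact hp2 ((Nat.prime_dvd_prime_iff_eq hp Nat.prime_two).1 h9)
      rcases hpZ.dvd_mul.1 h3 with h4 | h4
      · have h6 : ¬ (p : ℤ) ∣ z + 1 := fun h => h5 ⟨h4, h⟩
        have h7 : IsCoprime ((p : ℤ) ^ 2) (z + 1) :=
          ((hpZ.coprime_iff_not_dvd).2 h6).pow_left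
        have h8 : (p : ℤ) ^ 2 ∣ z - 1 := h7.dvd_of_dvd_mul_right h2
        exact ⟨1, by norm_num, ((Int.modEq_iff_dvd).2 h4).symm, fun _ => ((Int.modEq_iff_dvd).2 h8).symm⟩
      · have h6 : ¬ (p : ℤ) ∣ z - 1 := fun h => h5 ⟨h, h4⟩
        have h7 : IsCoprime ((p : ℤ) ^ 2) (z - 1) :=
          ((hpZ.coprime_iff_not_dvd).2 h6).pow_left
        have h8 : (p : ℤ) ^ 2 ∣ z + 1 := h7.dvd_of_dvd_mul_left h2
        refine ⟨-1, by norm_num, ((Int.modEq_iff_dvd).2 ?_).symm, fun _ => ((Int.modEq_iff_dvd).2 ?_).symm⟩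
        · simpa using h4
        · simpa using h8
  obtain ⟨e, he, h2, h3⟩ := h1
  have hep : ∀ k : ℕ, IsUnit (e ^ k) := fun k => (IsUnit.of_mul_eq_one e (by rw [← sq]; exact he)).pow k
  have h4 : U (2 * z) 1 l ≡ e ^ (l + 1) * l [ZMOD p] := by
    rw [← U_pm e he]; exact U_congr (Int.ModEq.mul rfl h2) l
  have h5 : (p : ℤ) ∣ e ^ (l + 1) * l := by
    rw [← Int.modEq_zero_iff_dvd] at hd ⊢
    exact h4.symm.trans hd
  have h6 : (p : ℤ) ∣ l := (IsUnit.dvd_mul_left (hep _)).1 h5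
  have h7 : p = l := (Nat.prime_dvd_prime_iff_eq hp hl).1 (by exact_mod_cast h6)
  refine ⟨h7, ?_⟩
  subst h7
  intro h8
  by_cases hp2 : p = 2
  · subst hp2
    have h9 : U (2 * z) 1 2 = 2 * z := by simp [U]
    rw [h9] at h8
    have h10 : z % 2 = 1 := by
      have h11 := h2
      have : e = 1 ∨ e = -1 := sq_eq_sq_iff_eq_or_eq_neg.1 (by rw [he, one_pow])
      unfold Int.ModEq at h11
      rcases this with rfl | rfl <;> omega
    norm_num at h8
    omega
  · have h9 : U (2 * z) 1 p ≡ e ^ (p + 1) * p [ZMOD (p : ℤ) ^ 2] := by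
      rw [← U_pm e he]; exact U_congr (Int.ModEq.mul rfl (h3 hp2)) p
    have h10 : (p : ℤ) ^ 2 ∣ e ^ (p + 1) * p := by
      rw [← Int.modEq_zero_iff_dvd] at h8 ⊢
      exact h9.symm.trans h8
    have h11 : (p : ℤ) ^ 2 ∣ p := (IsUnit.dvd_mul_left (hep _)).1 h10
    have h12 : p ^ 2 ∣ p := by exact_mod_cast h11
    have h13 := Nat.le_of_dvd hp.pos h12
    have h14 := hp.two_le
    nlinarith

/-- lower bound for the homogeneous cyclotomic numbers -/
theorem cyc_ge {a b : ℝ} (hab : a * b = 1) {n : ℕ} (hn : 2 ≤ n) :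
    ((a - b) ^ 2) ^ n.totient ≤ ‖cyc (a : ℂ) (b : ℂ) n‖ ^ 2 := by
  have hprim := Complex.isPrimitiveRoot_exp n (by omega)
  rw [cyc, norm_prod, ← Finset.prod_pow, ← hprim.card_primitiveRoots, ← Finset.prod_const]
  apply Finset.prod_le_prod
  · intro _ _; positivity
  · intro ζ hζ
    have hζ' := (mem_primitiveRoots (by omega)).1 hζ
    have h3 : ‖ζ‖ = 1 := hζ'.norm'_eq_one (by omega)
    have hn : ζ.re ^ 2 + ζ.im ^ 2 = 1 := by
      have h4 : Complex.normSq ζ = 1 := by rw [Complex.normSq_eq_norm_sq, h3]; norm_num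
      rw [Complex.normSq_apply] at h4
      linarith [h4, sq ζ.re, sq ζ.im]
    have hre : ζ.re ≤ 1 := by nlinarith [sq_nonneg ζ.im]
    have hns : ‖(a : ℂ) - ζ * b‖ ^ 2 = (a - b) ^ 2 + 2 * (1 - ζ.re) := by
      rw [← Complex.normSq_eq_norm_sq, Complex.normSq_apply]
      simp only [Complex.sub_re, Complex.mul_re, Complex.ofReal_re, Complex.ofReal_im, mul_zero,
        sub_zero, Complex.sub_im, Complex.mul_im, zero_add, zero_sub]
      linear_combination b ^ 2 * hn + (2 - 2 * ζ.re) * hab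
    rw [hns]
    linarith

theorem pow12 (k : ℕ) (hk : 1 ≤ k) : (k + 2) ^ 2 ≤ 12 ^ k := by
  induction k, hk using Nat.le_induction with
  | base => norm_num
  | succ k hk ih =>
    have h1 : 12 ^ (k + 1) = 12 ^ k * 12 := pow_succ _ _
    have h2 : (k + 1 + 2) ^ 2 ≤ (k + 2) ^ 2 * 12 := by nlinarith
    calc (k + 1 + 2) ^ 2 ≤ (k + 2) ^ 2 * 12 := h2
      _ ≤ 12 ^ k * 12 := Nat.mul_le_mul_right _ ih
      _ = 12 ^ (k + 1) := h1.symm

theorem prod_odd (S : Finset ℕ) (hS : ∀ p ∈ S, 3 ≤ p) :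
    12 * (∏ p ∈ S, p) ^ 2 ≤ 12 ^ (∏ p ∈ S, (p - 1)) := by
  induction S using Finset.induction_on with
  | empty => simp
  | insert p S hp ih =>
    have ih' := ih fun q hq => hS q (mem_insert_of_mem hq)
    have h3 := hS p (mem_insert_self _ _)
    rw [Finset.prod_insert hp, Finset.prod_insert hp]
    set f := ∏ p ∈ S, p with hf
    set g := ∏ p ∈ S, (p - 1) with hg
    have hf1 : 1 ≤ f := Finset.one_le_prod' fun q hq => by
      have := hS q (mem_insert_of_mem hq); omega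
    obtain ⟨k, rfl⟩ : ∃ k, p = k + 2 := ⟨p - 2, by omega⟩
    have hk : 1 ≤ k := by omega
    have e1 : k + 2 - 1 = 1 + k := by omega
    rw [e1, pow_mul', pow_add, pow_one]
    have h5 : 12 ^ k ≤ (12 ^ g) ^ k := by
      apply Nat.pow_le_pow_left
      have : 12 * 1 ≤ 12 * f ^ 2 := Nat.mul_le_mul_left _ (Nat.one_le_pow _ _ hf1)
      omega
    calc 12 * ((k + 2) * f) ^ 2 = (12 * f ^ 2) * (k + 2) ^ 2 := by ring
      _ ≤ 12 ^ g * 12 ^ k := Nat.mul_le_mul ih' (pow12 k hk)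
      _ ≤ 12 ^ g * (12 ^ g) ^ k := Nat.mul_le_mul_left _ h5

theorem prod_primes (S : Finset ℕ) (hS : ∀ p ∈ S, p.Prime) :
    3 * (∏ p ∈ S, p) ^ 2 ≤ 12 ^ (∏ p ∈ S, (p - 1)) := by
  by_cases h2 : 2 ∈ S
  · obtain ⟨T, hT, rfl⟩ : ∃ T, 2 ∉ T ∧ insert 2 T = S := ⟨S.erase 2, by simp, by simp [h2]⟩
    rw [Finset.prod_insert hT, Finset.prod_insert hT]
    have h3 := prod_odd T (by
      intro p hp
      have h4 := (hS p (mem_insert_of_mem hp)).two_le
      have h5 : p ≠ 2 := by rintro rfl; exact hT hp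
      omega)
    rw [show 2 - 1 = 1 from rfl, one_mul]
    calc 3 * (2 * ∏ p ∈ T, p) ^ 2 = 12 * (∏ p ∈ T, p) ^ 2 := by ring
      _ ≤ _ := h3
  · have h3 := prod_odd S (by
      intro p hp
      have h4 := (hS p hp).two_le
      have h5 : p ≠ 2 := by rintro rfl; exact h2 hp
      omega)
    have : 3 * (∏ p ∈ S, p) ^ 2 ≤ 12 * (∏ p ∈ S, p) ^ 2 := Nat.mul_le_mul_right _ (by norm_num)
    omega

theorem totient_ge {n : ℕ} (hn : 1 ≤ n) : ∏ p ∈ n.primeFactors, (p - 1) ≤ n.totient := by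
  rw [Nat.totient_eq_div_primeFactors_mul]
  apply Nat.le_mul_of_pos_left
  apply Nat.div_pos (Nat.le_of_dvd (by omega) (Nat.prod_primeFactors_dvd n))
  exact Finset.prod_pos fun p hp => (Nat.prime_of_mem_primeFactors hp).pos

/-- **Primitive prime divisors.** -/
theorem primitive {d : ℤ} (a : Pell.Solution₁ d) (hx : 0 < a.x) (hy : 0 < a.y) (hd : 0 < d)
    {n : ℕ} (hn : 2 ≤ n) :
    ∃ p : ℕ, p.Prime ∧ (p : ℤ) ∣ (a ^ n).y ∧ ∀ m, 1 ≤ m → m < n → ¬ (p : ℤ) ∣ (a ^ m).y := by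
  by_contra hcon
  push Not at hcon
  have hprop := a.prop
  have hdy : 1 ≤ d * a.y ^ 2 := by
    have : 0 < d * a.y ^ 2 := by positivity
    omega
  have hx2 : 2 ≤ a.x := by nlinarith
  have hypos : ∀ m, 1 ≤ m → 0 < (a ^ m).y := by
    intro m hm
    obtain ⟨k, rfl⟩ : ∃ k, m = k + 1 := ⟨m - 1, by omega⟩
    exact Pell.Solution₁.y_pow_succ_pos hx hy k
  have hne : ∀ m, 1 ≤ m → U (2 * a.x) 1 m ≠ 0 := by
    intro m hm h0
    have h1 := y_pow a m
    rw [h0, mul_zero] at h1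
    exact absurd h1 (hypos m hm).ne'
  have hcop : IsCoprime (2 * a.x) (1 : ℤ) := isCoprime_one_right
  have hsd := sd hcop hne
  set W := prim (fun n => (U (2 * a.x) 1 n).natAbs) n with hW
  have hWmul := prim_mul hsd (show 1 ≤ n by omega)
  rw [← hW] at hWmul
  -- the prime divisors of `W`
  have hWp : ∀ p : ℕ, p.Prime → p ∣ W → p ∣ n ∧ ¬ p ^ 2 ∣ W := by
    intro p hp hpW
    have h1 : (p : ℤ) ∣ (a ^ n).y := by
      rw [y_pow]
      apply Dvd.dvd.mul_left
      rw [← Int.dvd_natAbs]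
      have : W ∣ (U (2 * a.x) 1 n).natAbs := ⟨_, hWmul.symm⟩
      exact_mod_cast hpW.trans this
    obtain ⟨m, hm1, hm2, hm3⟩ := hcon p hp h1
    set e := Nat.gcd m n with he
    have he1 : 1 ≤ e := Nat.gcd_pos_of_pos_left _ hm1
    have hem : e ≤ m := Nat.gcd_le_left _ hm1
    have hpe : (p : ℤ) ∣ (a ^ e).y := by
      rw [y_pow] at h1 hm3 ⊢
      have hpZ : Prime (p : ℤ) := Nat.prime_iff_prime_int.1 hp
      rcases hpZ.dvd_mul.1 hm3 with h2 | h2
      · exact h2.mul_right _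
      · rcases hpZ.dvd_mul.1 h1 with h3 | h3
        · exact h3.mul_right _
        · apply Dvd.dvd.mul_left
          rw [← Int.dvd_natAbs, he, ← gcd_U hcop]
          exact Int.dvd_coe_gcd h2 h3
    obtain ⟨k, hk⟩ := Nat.gcd_dvd_right m n
    rw [← he] at hk
    have hk2 : 2 ≤ k := by
      by_contra hlt
      have : k = 0 ∨ k = 1 := by omega
      rcases this with rfl | rfl <;> omega
    have hl : k.minFac.Prime := Nat.minFac_prime (by omega)
    obtain ⟨k', hk'⟩ := Nat.minFac_dvd k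
    set l := k.minFac with hldef
    have hk'1 : 1 ≤ k' := by
      rcases Nat.eq_zero_or_pos k' with h0 | h0
      · rw [h0, mul_zero] at hk'; omega
      · exact h0
    set d' := e * k' with hd'
    have hnd : n = d' * l := by rw [hk, hk', hd']; ring
    have hd'1 : 1 ≤ d' := Nat.mul_pos he1 hk'1
    have hd'n : d' < n := by
      rw [hnd]
      have := hl.two_le
      nlinarith
    have hpd' : (p : ℤ) ∣ (a ^ d').y := by
      rw [hd', pow_mul, y_pow]
      exact hpe.mul_right _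
    -- the quotient
    set w := U (2 * (a ^ d').x) 1 l with hw
    have hUn : U (2 * a.x) 1 n = U (2 * a.x) 1 d' * w := by
      have h2 := y_pow a n
      rw [hnd, pow_mul, y_pow, y_pow, mul_assoc, ← hnd] at h2
      exact (mul_left_cancel₀ hy.ne' h2).symm
    have hWw : W ∣ w.natAbs := by
      have h2 : (U (2 * a.x) 1 d').natAbs ∣
          n.properDivisors.lcm (fun n => (U (2 * a.x) 1 n).natAbs) :=
        Finset.dvd_lcm (f := fun n => (U (2 * a.x) 1 n).natAbs)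
          (Nat.mem_properDivisors.2 ⟨⟨l, hnd⟩, hd'n⟩)
      obtain ⟨c, hc⟩ := h2
      have h3 : (U (2 * a.x) 1 n).natAbs = (U (2 * a.x) 1 d').natAbs * w.natAbs := by
        rw [hUn, Int.natAbs_mul]
      rw [hc] at hWmul
      have h4 : (U (2 * a.x) 1 d').natAbs * (W * c) = (U (2 * a.x) 1 d').natAbs * w.natAbs := by
        rw [← h3, ← hWmul]; ring
      have h5 := Nat.eq_of_mul_eq_mul_left (hsd.pos d' hd'1) h4
      exact ⟨c, h5.symm⟩
    have hz : (p : ℤ) ^ 2 ∣ (a ^ d').x ^ 2 - 1 := by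
      have h2 := (a ^ d').prop
      obtain ⟨c, hc⟩ := hpd'
      refine ⟨d * c ^ 2, ?_⟩
      rw [hc] at h2
      linear_combination h2
    have hpw : (p : ℤ) ∣ w := by
      rw [← Int.dvd_natAbs]
      exact_mod_cast hpW.trans hWw
    obtain ⟨h2, h3⟩ := U_prime hp hl hz hpw
    refine ⟨?_, ?_⟩
    · rw [h2, hnd]; exact Dvd.intro_left _ rfl
    · intro h4
      apply h3
      rw [← hw, ← Int.dvd_natAbs]
      exact_mod_cast h4.trans hWw
  -- upper bound
  have hW0 : W ≠ 0 := (prim_pos hsd (by omega)).ne'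
  have hsqf : Squarefree W := by
    rw [Nat.squarefree_iff_prime_squarefree]
    intro p hp hpp
    have h1 : p ∣ W := (Dvd.intro _ rfl).trans hpp
    exact (hWp p hp h1).2 (by rw [sq]; exact hpp)
  have hWle : W ≤ ∏ p ∈ n.primeFactors, p := by
    rw [← Nat.prod_primeFactors_of_squarefree hsqf]
    apply Finset.prod_le_prod_of_subset_of_one_le'
    · intro p hp
      rw [Nat.mem_primeFactors] at hp ⊢
      exact ⟨hp.1, (hWp p hp.1 hp.2.1).1, by omega⟩
    · intro p hp _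
      exact (Nat.prime_of_mem_primeFactors hp).one_le
  -- lower bound
  set s : ℝ := Real.sqrt ((a.x : ℝ) ^ 2 - 1) with hs
  have hxR : (2 : ℝ) ≤ a.x := by exact_mod_cast hx2
  have hs2 : s ^ 2 = (a.x : ℝ) ^ 2 - 1 := Real.sq_sqrt (by nlinarith)
  have hspos : 0 < s := Real.sqrt_pos.2 (by nlinarith)
  have hab : ((a.x : ℝ) + s) * ((a.x : ℝ) - s) = 1 := by linear_combination -hs2
  have h12 : (12 : ℝ) ≤ (((a.x : ℝ) + s) - ((a.x : ℝ) - s)) ^ 2 := by nlinarith
  have hcyc := prim_eq_cyc hcop hne (α := (((a.x : ℝ) + s : ℝ) : ℂ)) (β := (((a.x : ℝ) - s : ℝ) : ℂ))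
    (by push_cast; ring) (by rw [← Complex.ofReal_mul, hab]; simp) one_ne_zero
    (by
      intro h
      have := Complex.ofReal_injective h
      linarith) n hn
  have hge := cyc_ge hab hn
  rw [← hcyc] at hge
  have h13 : (12 : ℝ) ^ n.totient ≤ (W : ℝ) ^ 2 :=
    (pow_le_pow_left₀ (by norm_num) h12 _).trans hge
  have h14 : 12 ^ n.totient ≤ W ^ 2 := by exact_mod_cast h13
  have h15 := prod_primes n.primeFactors fun p hp => Nat.prime_of_mem_primeFactors hp
  have h16 : 12 ^ (∏ p ∈ n.primeFactors, (p - 1)) ≤ 12 ^ n.totient :=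
    Nat.pow_le_pow_right (by norm_num) (totient_ge (by omega))
  have h17 : W ^ 2 ≤ (∏ p ∈ n.primeFactors, p) ^ 2 := Nat.pow_le_pow_left hWle 2
  have h18 : 0 < (∏ p ∈ n.primeFactors, p) ^ 2 := by
    apply pow_pos
    exact Finset.prod_pos fun p hp => (Nat.prime_of_mem_primeFactors hp).pos
  omega

end Pool.Agent.H977.RK
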