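import Mathlib
import Pool.Agent.H977.RK.Prim

set_option autoImplicit false

/-!
The number of integers `m` for which `m ^ 2 - 1` is in a coset of a group of rank `r`.
-/

open Finset

namespace Pool.Agent.H977.RK

/-- the vector of the exponents of the primes in `n` -/
def ev (n : ℕ) : Nat.Primes → ℤ := fun p => (n.factorization p : ℤ)

theorem ev_mul {a b : ℕ} (ha : a ≠ 0) (hb : b ≠ 0) : ev (a * b) = ev a + ev b := by
  funext p
  simp [ev, Nat.factorization_mul ha hb]

theorem ev_pow (a k : ℕ) : ev (a ^ k) = k • ev a := by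
  funext p
  simp [ev, Nat.factorization_pow]

/-- one class: solutions of one Pell equation -/
theorem count_class (D : ℕ) (L : Submodule ℤ (Nat.Primes → ℤ)) [Module.Finite ℤ L] (M : Finset ℕ)
    (Y : ℕ → ℕ) (hM : ∀ m ∈ M, 2 ≤ m) (hY : ∀ m ∈ M, m ^ 2 = D * Y m ^ 2 + 1)
    (hL : ∀ m ∈ M, ∀ m' ∈ M, ev (Y m) - ev (Y m') ∈ L) :
    M.card ≤ Module.finrank ℤ L + 1 := by
  classical
  rcases M.eq_empty_or_nonempty with rfl | hne
  · simp
  obtain ⟨m₁, hm₁⟩ := hne
  have hsq : ¬ IsSquare D := by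
    rintro ⟨e, he⟩
    have h1 := hY m₁ hm₁
    have h2 := hM m₁ hm₁
    have h3 : m₁ ^ 2 = (e * Y m₁) ^ 2 + 1 := by rw [h1, he]; ring
    have h4 : e * Y m₁ < m₁ := by
      by_contra hcon
      push Not at hcon
      have := Nat.pow_le_pow_left hcon 2
      omega
    have h5 : (e * Y m₁ + 1) ^ 2 ≤ m₁ ^ 2 := Nat.pow_le_pow_left h4 2
    have h6 : (e * Y m₁ + 1) ^ 2 = (e * Y m₁) ^ 2 + 2 * (e * Y m₁) + 1 := by ring
    have h7 : e * Y m₁ = 0 := by omega
    rw [h7] at h3
    have h8 : 2 ^ 2 ≤ m₁ ^ 2 := Nat.pow_le_pow_left h2 2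
    omega
  have hD0 : 0 < D := by
    rcases Nat.eq_zero_or_pos D with h0 | h0
    · exact absurd (by rw [h0]; exact ⟨0, rfl⟩) hsq
    · exact h0
  have hDZ : (0:ℤ) < (D:ℤ) := by exact_mod_cast hD0
  have hsqZ : ¬ IsSquare (D:ℤ) := by
    rw [Int.isSquare_natCast_iff]
    exact hsq
  obtain ⟨a, ha⟩ := Pell.IsFundamental.exists_of_not_isSquare hDZ hsqZ
  have hY0 : ∀ m ∈ M, 0 < Y m := by
    intro m hm
    rcases Nat.eq_zero_or_pos (Y m) with h0 | h0
    · exfalso
      have h1 := hY m hm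
      have h2 := hM m hm
      rw [h0] at h1
      have h8 : 2 ^ 2 ≤ m ^ 2 := Nat.pow_le_pow_left h2 2
      omega
    · exact h0
  have hex : ∀ m : ℕ, ∃ n : ℕ, m ∈ M → (1 ≤ n ∧ (a ^ n).x = m ∧ (a ^ n).y = Y m) := by
    intro m
    by_cases hm : m ∈ M
    · have h1 := hY m hm
      have hprop : (m:ℤ) ^ 2 - D * (Y m:ℤ) ^ 2 = 1 := by
        have : ((m:ℤ)) ^ 2 = D * (Y m:ℤ) ^ 2 + 1 := by exact_mod_cast h1
        linarith
      set b : Pell.Solution₁ (D:ℤ) := Pell.Solution₁.mk m (Y m) hprop with hb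
      have hbx : b.x = m := Pell.Solution₁.x_mk _ _ _
      have hby : b.y = Y m := Pell.Solution₁.y_mk _ _ _
      obtain ⟨n, hn⟩ := ha.eq_pow_of_nonneg (a := b)
        (by rw [hbx]; have := hM m hm; exact_mod_cast (by omega : 0 < m))
        (by rw [hby]; positivity)
      refine ⟨n, fun _ => ⟨?_, by rw [← hn, hbx], by rw [← hn, hby]⟩⟩
      rcases Nat.eq_zero_or_pos n with h0 | h0
      · exfalso
        rw [h0, pow_zero] at hn
        have h2 : b.y = 0 := by rw [hn]; exact Pell.Solution₁.y_one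
        rw [hby] at h2
        have h3 : Y m = 0 := by exact_mod_cast h2
        exact absurd h3 (hY0 m hm).ne'
      · exact h0
    · exact ⟨0, fun h => absurd h hm⟩
  choose ν hν using hex
  have hinj : ∀ m ∈ M, ∀ m' ∈ M, ν m = ν m' → m = m' := by
    intro m hm m' hm' h
    have h1 := (hν m hm).2.1
    have h2 := (hν m' hm').2.1
    rw [h] at h1
    rw [h1] at h2
    exact_mod_cast h2
  obtain ⟨m₀, hm₀, hmin⟩ := Finset.exists_min_image M ν ⟨m₁, hm₁⟩
  have hax : 0 < a.x := ha.x_pos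
  have hay : 0 < a.y := ha.2.1
  have hprim : ∀ m : {m // m ∈ M.erase m₀}, ∃ p : Nat.Primes, 0 < ev (Y m) p ∧
      ∀ m' ∈ M, ν m' < ν m → ev (Y m') p = 0 := by
    rintro ⟨m, hm⟩
    rw [Finset.mem_erase] at hm
    have h1 := hmin m hm.2
    have h2 : ν m₀ ≠ ν m := fun h => hm.1 (hinj _ hm₀ _ hm.2 h).symm
    have h3 := (hν m₀ hm₀).1
    obtain ⟨p, hp, hpd, hpn⟩ := primitive a hax hay hDZ (n := ν m) (by omega)
    refine ⟨⟨p, hp⟩, ?_, ?_⟩
    · rw [(hν m hm.2).2.2] at hpd
      have h4 : p ∣ Y m := by exact_mod_cast hpd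
      have h5 := hp.factorization_pos_of_dvd (hY0 m hm.2).ne' h4
      show (0 : ℤ) < ((Y m).factorization p : ℤ)
      exact_mod_cast h5
    · intro m' hm' hlt
      have h4 := hpn (ν m') (hν m' hm').1 hlt
      rw [(hν m' hm').2.2] at h4
      have h5 : ¬ p ∣ Y m' := fun h => h4 (by exact_mod_cast h)
      show ((Y m').factorization p : ℤ) = 0
      rw [Nat.factorization_eq_zero_of_not_dvd h5]
      rfl
  choose P hP1 hP2 using hprim
  have hmem : ∀ m : {m // m ∈ M.erase m₀}, ev (Y m) - ev (Y m₀) ∈ L :=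
    fun m => hL _ (Finset.mem_of_mem_erase m.2) _ hm₀
  have hli : LinearIndependent ℤ
      (fun m : {m // m ∈ M.erase m₀} => (⟨ev (Y m) - ev (Y m₀), hmem m⟩ : L)) := by
    rw [linearIndependent_iff']
    intro s g hsum
    by_contra hcon
    push Not at hcon
    obtain ⟨i₀, hi₀, hgi₀⟩ := hcon
    obtain ⟨i, hi, hmax⟩ := Finset.exists_max_image (s.filter fun i => g i ≠ 0) (fun i => ν i)
      ⟨i₀, Finset.mem_filter.2 ⟨hi₀, hgi₀⟩⟩
    rw [Finset.mem_filter] at hi
    have h1 := congrArg (fun v : L => (v : Nat.Primes → ℤ) (P i)) hsum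
    simp only [Submodule.coe_sum, Submodule.coe_smul, Finset.sum_apply, Pi.smul_apply, Pi.sub_apply,
      smul_eq_mul, Submodule.coe_zero, Pi.zero_apply] at h1
    have hlt0 : ν m₀ < ν i := by
      have h2 := hmin i (Finset.mem_of_mem_erase i.2)
      have h3 : ν m₀ ≠ ν i := fun h =>
        (Finset.mem_erase.1 i.2).1 (hinj _ hm₀ _ (Finset.mem_of_mem_erase i.2) h).symm
      omega
    rw [Finset.sum_eq_single i] at h1
    · rw [hP2 i m₀ hm₀ hlt0, sub_zero] at h1
      rcases mul_eq_zero.1 h1 with h2 | h2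
      · exact hi.2 h2
      · exact absurd h2 (hP1 i).ne'
    · intro j hj hji
      by_cases hg : g j = 0
      · rw [hg, zero_mul]
      · have h2 := hmax j (Finset.mem_filter.2 ⟨hj, hg⟩)
        have h3 : ν j ≠ ν i := fun h => hji (Subtype.ext
          (hinj _ (Finset.mem_of_mem_erase j.2) _ (Finset.mem_of_mem_erase i.2) h))
        rw [hP2 i m₀ hm₀ hlt0, hP2 i j (Finset.mem_of_mem_erase j.2) (by
          show ν j < ν i
          have : ν (j : ℕ) ≤ ν (i : ℕ) := h2
          omega), sub_zero, mul_zero]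
    · intro h; exact absurd hi.1 h
  have hcard := hli.fintype_card_le_finrank
  rw [Fintype.card_coe, Finset.card_erase_of_mem hm₀] at hcard
  omega

/-- **Main counting theorem.** -/
theorem count (L : Submodule ℤ (Nat.Primes → ℤ)) [Module.Finite ℤ L] (v : Nat.Primes → ℤ)
    (M : Finset ℕ) (hM : ∀ m ∈ M, 2 ≤ m) (h : ∀ m ∈ M, ev (m ^ 2 - 1) - v ∈ L) :
    M.card ≤ 2 ^ Module.finrank ℤ L * (Module.finrank ℤ L + 1) := by
  classical
  set r := Module.finrank ℤ L with hr
  have : Module.Free ℤ L := Module.free_of_finite_type_torsion_free'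
  let b := Module.finBasis ℤ L
  -- square-free parts
  have hex : ∀ m : ℕ, ∃ D y : ℕ, 2 ≤ m → (y ^ 2 * D = m ^ 2 - 1 ∧ Squarefree D) := by
    intro m
    obtain ⟨D, y, h1, h2⟩ := Nat.sq_mul_squarefree (m ^ 2 - 1)
    exact ⟨D, y, fun _ => ⟨h1, h2⟩⟩
  choose D Y hDY using hex
  have hpos : ∀ m, 2 ≤ m → 0 < m ^ 2 - 1 := by
    intro m hm
    have : 2 ^ 2 ≤ m ^ 2 := Nat.pow_le_pow_left hm 2
    omega
  have hD0 : ∀ m, 2 ≤ m → D m ≠ 0 := fun m hm h0 => by
    have := (hDY m hm).1; rw [h0, mul_zero] at this; have := hpos m hm; omega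
  have hY0 : ∀ m, 2 ≤ m → Y m ≠ 0 := by
    intro m hm h0
    have h1 := (hDY m hm).1
    rw [h0, zero_pow two_ne_zero, zero_mul] at h1
    have h2 := hpos m hm
    omega
  have hev : ∀ m, 2 ≤ m → ev (m ^ 2 - 1) = (2 : ℤ) • ev (Y m) + ev (D m) := by
    intro m hm
    rw [← (hDY m hm).1, ev_mul (pow_ne_zero _ (hY0 m hm)) (hD0 m hm), ev_pow]
    norm_cast
  -- the classes
  let c : {m // m ∈ M} → (Fin r → ZMod 2) := fun m i => ((b.repr ⟨_, h m m.2⟩ i : ℤ) : ZMod 2)
  have hfib : ∀ k ∈ (Finset.univ : Finset {m // m ∈ M}).image c,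
      ((Finset.univ : Finset {m // m ∈ M}).filter fun m => c m = k).card ≤ r + 1 := by
    intro k _
    set F := ((Finset.univ : Finset {m // m ∈ M}).filter fun m => c m = k) with hF
    have hhalf : ∀ m ∈ F, ∀ m' ∈ F, ∃ l ∈ L,
        ev ((m : ℕ) ^ 2 - 1) - ev ((m' : ℕ) ^ 2 - 1) = (2 : ℤ) • l := by
      intro m hm m' hm'
      rw [hF, Finset.mem_filter] at hm hm'
      set w : L := ⟨_, h m m.2⟩ - ⟨_, h m' m'.2⟩ with hw
      have h1 : ∀ i, (2 : ℤ) ∣ b.repr w i := by
        intro i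
        have h2 : c m i = c m' i := by rw [hm.2, hm'.2]
        have h3 : ((b.repr w i : ℤ) : ZMod 2) = 0 := by
          rw [hw, map_sub, Finsupp.sub_apply, Int.cast_sub]
          exact sub_eq_zero.2 h2
        exact (ZMod.intCast_zmod_eq_zero_iff_dvd _ 2).1 h3
      choose t ht using h1
      refine ⟨((∑ i, t i • b i : L) : Nat.Primes → ℤ), Subtype.mem _, ?_⟩
      have h4 : w = (2 : ℤ) • (∑ i, t i • b i) := by
        rw [← b.sum_repr w, Finset.smul_sum]
        refine Finset.sum_congr rfl fun i _ => ?_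
        rw [ht i, mul_smul]
      have h5 := congrArg (Subtype.val) h4
      rw [hw] at h5
      simp only [Submodule.coe_sub, Submodule.coe_smul] at h5
      rw [← h5]
      abel
    rcases F.eq_empty_or_nonempty with he | ⟨m₀, hm₀⟩
    · rw [he]; simp
    have hM2 : ∀ m : {m // m ∈ M}, 2 ≤ (m : ℕ) := fun m => hM m m.2
    -- the same square-free part
    have hDeq : ∀ m ∈ F, D m = D m₀ := by
      intro m hm
      obtain ⟨l, _, hl⟩ := hhalf m hm m₀ hm₀
      rw [hev m (hM2 m), hev m₀ (hM2 m₀)] at hl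
      apply Nat.eq_of_factorization_eq (hD0 _ (hM2 m)) (hD0 _ (hM2 m₀))
      intro p
      by_cases hp : p.Prime
      · have h1 := congrFun hl ⟨p, hp⟩
        have h2 := ((hDY m (hM2 m)).2).natFactorization_le_one p
        have h3 := ((hDY m₀ (hM2 m₀)).2).natFactorization_le_one p
        have h1' : 2 * ((Y m).factorization p : ℤ) + ((D m).factorization p : ℤ) -
          (2 * ((Y m₀).factorization p : ℤ) + ((D m₀).factorization p : ℤ)) = 2 * l ⟨p, hp⟩ := h1
        omega
      · rw [Nat.factorization_eq_zero_of_not_prime _ hp, Nat.factorization_eq_zero_of_not_prime _ hp]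
    have hYd : ∀ m ∈ F, ∀ m' ∈ F, ev (Y m) - ev (Y m') ∈ L := by
      intro m hm m' hm'
      obtain ⟨l, hlL, hl⟩ := hhalf m hm m' hm'
      rw [hev m (hM2 m), hev m' (hM2 m'), hDeq m hm, hDeq m' hm'] at hl
      have : ev (Y m) - ev (Y m') = l := by
        funext p
        have h1 := congrFun hl p
        simp only [Pi.add_apply, Pi.sub_apply, Pi.smul_apply, smul_eq_mul] at h1 ⊢
        linarith
      rw [this]; exact hlL
    have h2 := count_class (D m₀) L (F.map ⟨Subtype.val, Subtype.val_injective⟩) Y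
      (by
        intro m hm
        rw [Finset.mem_map] at hm
        obtain ⟨m', _, rfl⟩ := hm
        exact hM2 m')
      (by
        intro m hm
        rw [Finset.mem_map] at hm
        obtain ⟨m', hm', rfl⟩ := hm
        have h3 := (hDY m' (hM2 m')).1
        have h4 := hpos m' (hM2 m')
        rw [hDeq m' hm'] at h3
        show (m' : ℕ) ^ 2 = D m₀ * Y m' ^ 2 + 1
        have h5 : D m₀ * Y m' ^ 2 = (m' : ℕ) ^ 2 - 1 := by rw [← h3]; ring
        omega)
      (by
        intro m hm m' hm'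
        rw [Finset.mem_map] at hm hm'
        obtain ⟨n, hn, rfl⟩ := hm
        obtain ⟨n', hn', rfl⟩ := hm'
        exact hYd n hn n' hn')
    rwa [Finset.card_map] at h2
  have h3 := Finset.card_le_mul_card_image (f := c) (Finset.univ : Finset {m // m ∈ M}) (r + 1) hfib
  have h4 : ((Finset.univ : Finset {m // m ∈ M}).image c).card ≤ 2 ^ r := by
    refine (Finset.card_le_univ _).trans ?_
    rw [Fintype.card_fun, ZMod.card, Fintype.card_fin]
  have h5 : (Finset.univ : Finset {m // m ∈ M}).card = M.card := by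
    rw [Finset.card_univ, Fintype.card_coe]
  rw [h5] at h3
  calc M.card ≤ (r + 1) * _ := h3
    _ ≤ (r + 1) * 2 ^ r := Nat.mul_le_mul_left _ h4
    _ = 2 ^ r * (r + 1) := by ring

end Pool.Agent.H977.RK
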