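import Mathlib
import Pool.Agent.H977.RK.Count

set_option autoImplicit false

/-!
The rank of the group generated by a finite set of integers, and the numbers `z` with `z` and `q z ± 1`
in this group up to a constant.
-/

open Finset

namespace Pool.Agent.H977.RK

/-- the exponents of the primes in a rational number -/
noncomputable def V : Additive ℚˣ →+ (Nat.Primes → ℤ) where
  toFun u := fun p => padicValRat p ((Additive.toMul u : ℚˣ) : ℚ)
  map_zero' := by
    funext p
    simp
  map_add' u w := by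
    funext p
    have := Fact.mk p.2
    simp only [toMul_add, Units.val_mul, Pi.add_apply]
    exact padicValRat.mul (Units.ne_zero _) (Units.ne_zero _)

/-- the rank of the subgroup of the multiplicative group of `ℚ` generated by the elements of `Z` -/
noncomputable def rank (Z : Finset ℤ) : ℕ :=
  Module.finrank ℤ (Additive (Subgroup.closure {u : ℚˣ | ∃ z ∈ Z, (u : ℚ) = z}))

theorem fin_set (Z : Finset ℤ) : {u : ℚˣ | ∃ z ∈ Z, (u : ℚ) = z}.Finite := by
  have h1 : {u : ℚˣ | ∃ z ∈ Z, (u : ℚ) = z} = (Units.val : ℚˣ → ℚ) ⁻¹' ((fun z : ℤ => (z : ℚ)) '' Z) := by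
    ext u
    simp only [Set.mem_ofPred_eq, Set.mem_preimage, Set.mem_image, Finset.mem_coe]
    constructor
    · rintro ⟨z, hz, h⟩; exact ⟨z, hz, h.symm⟩
    · rintro ⟨z, hz, h⟩; exact ⟨z, hz, h.symm⟩
  rw [h1]
  exact (Z.finite_toSet.image _).preimage Units.val_injective.injOn

theorem finite_closure (Z : Finset ℤ) :
    Module.Finite ℤ (Additive (Subgroup.closure {u : ℚˣ | ∃ z ∈ Z, (u : ℚ) = z})) := by
  have := (fin_set Z).to_subtype
  have h1 : Group.FG (Subgroup.closure {u : ℚˣ | ∃ z ∈ Z, (u : ℚ) = z}) := Group.closure_finite_fg _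
  have h2 : AddGroup.FG (Additive (Subgroup.closure {u : ℚˣ | ∃ z ∈ Z, (u : ℚ) = z})) :=
    GroupFG.iff_add_fg.1 h1
  exact Module.Finite.iff_addGroup_fg.2 h2

theorem exists_L (Z : Finset ℤ) : ∃ L : Submodule ℤ (Nat.Primes → ℤ), Module.Finite ℤ L ∧
    Module.finrank ℤ L ≤ rank Z ∧ ∀ z ∈ Z, z ≠ 0 → ev z.natAbs ∈ L := by
  have hfin := finite_closure Z
  set G := Subgroup.closure {u : ℚˣ | ∃ z ∈ Z, (u : ℚ) = z} with hG
  let f : Additive G →ₗ[ℤ] (Nat.Primes → ℤ) := (V.comp (MonoidHom.toAdditive G.subtype)).toIntLinearMap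
  refine ⟨LinearMap.range f, inferInstance, LinearMap.finrank_range_le f, ?_⟩
  intro z hz h0
  have hzQ : (z : ℚ) ≠ 0 := by exact_mod_cast h0
  have hmem : Units.mk0 (z : ℚ) hzQ ∈ G := Subgroup.subset_closure ⟨z, hz, rfl⟩
  refine ⟨Additive.ofMul ⟨Units.mk0 (z : ℚ) hzQ, hmem⟩, ?_⟩
  funext p
  show padicValRat p ((z : ℤ) : ℚ) = ((z.natAbs.factorization p : ℕ) : ℤ)
  rw [padicValRat.of_int, Nat.factorization_def _ p.2]
  rfl

theorem odd_count (q : ℕ) (hq : 2 ≤ q) (e : ℤ) (he : e = 1 ∨ e = -1) (Z O : Finset ℤ) (f : ℤ → ℤ)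
    (hO : ∀ z ∈ O, z ∈ Z ∧ f z ∈ Z ∧ z ≠ 0 ∧ f z ≠ 0 ∧ 2 * f z = q * z + e) :
    O.card ≤ 2 ^ rank Z * (rank Z + 1) := by
  obtain ⟨L, hfin, hr, hL⟩ := exists_L Z
  have hinj : Set.InjOn (fun z : ℤ => (2 * q * z + e).natAbs) (O : Set ℤ) := by
    intro z hz w hw h
    have h1 : (2 * q * z + e).natAbs = (2 * q * w + e).natAbs := h
    rcases Int.natAbs_eq_natAbs_iff.1 h1 with h2 | h2
    · have h3 : (2 * (q : ℤ)) * (z - w) = 0 := by linear_combination h2
      rcases mul_eq_zero.1 h3 with h4 | h4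
      · omega
      · omega
    · exfalso
      have h3 : (q : ℤ) * (z + w) = -e := by linarith
      have h4 : (q : ℤ) ∣ 1 := by
        have h5 : (q : ℤ) ∣ -e := ⟨_, h3.symm⟩
        rcases he with rfl | rfl
        · exact (dvd_neg.1 h5)
        · simpa using h5
      have h5 := Int.le_of_dvd one_pos h4
      omega
  have h1 := count L (ev (8 * q)) (O.image fun z : ℤ => (2 * q * z + e).natAbs)
    (by
      intro m hm
      rw [Finset.mem_image] at hm
      obtain ⟨z, hz, rfl⟩ := hm
      obtain ⟨_, _, h0, _, _⟩ := hO z hz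
      by_contra hlt
      have h3 : (2 * q * z + e).natAbs ≤ 1 := by omega
      have hqZ : (2 : ℤ) ≤ q := by exact_mod_cast hq
      rcases lt_or_gt_of_ne h0 with hneg | hpos
      · have : 2 * (q : ℤ) * z ≤ 2 * q * (-1) := mul_le_mul_of_nonneg_left (by omega) (by omega)
        rcases he with rfl | rfl <;> omega
      · have : 2 * (q : ℤ) * 1 ≤ 2 * q * z := mul_le_mul_of_nonneg_left (by omega) (by omega)
        rcases he with rfl | rfl <;> omega)
    (by
      intro m hm
      rw [Finset.mem_image] at hm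
      obtain ⟨z, hz, rfl⟩ := hm
      obtain ⟨hzZ, hfZ, h0, hf0, h2⟩ := hO z hz
      have h3 : (2 * q * z + e).natAbs ^ 2 - 1 = 8 * q * (z.natAbs * (f z).natAbs) := by
        have h4 : ((2 * q * z + e).natAbs : ℤ) ^ 2 = 8 * q * (z * f z) + 1 := by
          rw [Int.natAbs_sq]
          have he2 : e ^ 2 = 1 := by rcases he with rfl | rfl <;> norm_num
          linear_combination he2 - 4 * (q : ℤ) * z * h2
        have h5 : 0 ≤ z * f z := by
          by_contra hneg
          push Not at hneg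
          have h6 : (8 * (q : ℤ)) * (z * f z) ≤ 8 * q * (-1) :=
            mul_le_mul_of_nonneg_left (by omega) (by positivity)
          have h7 := sq_nonneg ((2 * q * z + e).natAbs : ℤ)
          have hqZ : (2 : ℤ) ≤ q := by exact_mod_cast hq
          omega
        have h6 : ((z.natAbs * (f z).natAbs : ℕ) : ℤ) = z * f z := by
          rw [← Int.natAbs_mul, Int.natCast_natAbs, abs_of_nonneg h5]
        have h7 : (2 * q * z + e).natAbs ^ 2 = 8 * q * (z.natAbs * (f z).natAbs) + 1 := by
          have : (((2 * q * z + e).natAbs ^ 2 : ℕ) : ℤ) =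
              ((8 * q * (z.natAbs * (f z).natAbs) + 1 : ℕ) : ℤ) := by
            rw [Nat.cast_pow, h4, ← h6]; push_cast; ring
          exact_mod_cast this
        omega
      rw [h3, ev_mul (by omega) (Nat.mul_ne_zero (by omega) (by omega)), add_sub_cancel_left,
        ev_mul (by omega) (by omega)]
      exact L.add_mem (hL z hzZ h0) (hL _ hfZ hf0))
  rw [Finset.card_image_of_injOn hinj] at h1
  refine h1.trans (Nat.mul_le_mul (Nat.pow_le_pow_right (by norm_num) hr) (by omega))

end Pool.Agent.H977.RK
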